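import Pool.Agent.H148S.FinC
import Pool.Agent.H148N.Ex

/-!
# Closures of the Mordell-Weil groups over all extensions of bounded degree: few closed subsets

`E : y² = x³ + a x + b` is any elliptic curve over a number field `k` (`a, b ∈ 𝓞 k`, any rank, with or
without complex multiplication, nothing is assumed on its Tate-Shafarevich group), and
`X ⊂ E ^ r × ℙ ^ n` is an arbitrary closed subvariety over `k`, given by equations `G_l(V; y) = 0`
which are homogeneous in the coordinates `V_i` of each of the `r` plane cubics `E` and in `y`; it is a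
family of closed subsets `X_y ⊂ E ^ r` with the parameters `y ∈ ℙ ^ n`. For a complex point `S` of
`E ^ r` let `Sums G m S ⊂ ℙ ^ n` be the set of the `y` such that `S` is the sum of `m` complex points
of `X_y`.

Suppose that for `1 ≤ m ≤ M` and all `S` the dimension of `Sums G m S` is at most `e` (for `M = 1`:
all fibres of `X → E ^ r` have dimension at most `e`). There is a number `D` such that for EVERY
number field `K ⊇ k`, every finite set `T` of prime numbers, all `ε > 0` and all `B ≥ 1`, outside of
at most `C B ^ ε` closed subsets of `ℙ ^ n`, each of dimension at most `e` and given by equations of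
degree at most `D`, all points `y ∈ ℙ ^ n (K)` of height at most `B` have the following property: for
ALL extensions `F` of `K` of degree at most `M` the closure of `E(F) ^ r` in the product of the
`E(F_w) ^ r`, over all finite places `w` of `F` not above `T`, does not meet the product of the
`X_y(F_w)`. In particular every finite grid `S ^ n ⊂ K ^ n` contains at most `C B ^ ε |S| ^ e` points
`y` of height at most `B` without this property.

For a curve `C` over `F` in `X_y` (or with a map to `X_y`) and `Ш(E/F)` finite, the finite part of the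
Brauer-Manin set of `C` maps to the closure of `E(F) ^ r` (Scharaschkin, Skorobogatov, Stoll), so for
these `y` the Brauer-Manin set of `C` is empty and Stoll's conjecture holds for `C`.

`instances` below is an explicit class: the complete intersections `X_y : ∑_i f_li(P) y_i ^ m = 0`
(`l = 1, …, s`) in `E ^ r`, `(f_li)` any `s × (n + 1)` matrix of forms over `𝓞 k`, the `l`-th row of
multidegree `d_l`, which has rank `s` at all complex points of `E ^ r`. Here `M = 1` and `e = n - s`.
For `s = r - 1` the `X_y` are curves (or of larger dimension for special `y`).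

Known (starting library of this pool, over one field `K`): `e = 0` (ClosuresInFamilies,
FamiliesOverExtensions) and hypersurfaces (MP_ab3ecb_nt, ClosuresInLinearSystems,
ClosuresOverExtensions); their engine `Pool/Agent/Y213/CB`, which compares traces of adelic points
with sums of conjugate points modulo primes, is used here. New is the sieve for closed subsets of any
dimension, with bounds on the degrees which do not depend on `K`: the monomials in any `e + 2`
coordinates are linearly dependent modulo each prime, with an ultraproduct for the uniformity, and the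
determinants vanish by the size of the product of the primes.
-/

set_option autoImplicit false

namespace Pool.Agent.Results.MP_308fa9_nt.ClosuresFewSubvarieties

open MvPolynomial NumberField
open Pool.Agent.H148N (curve MultiHomog Sums DimLE DimDegLE aff IsForm OnE diag)
open Pool.Agent.H148S (Unobstructed)

open scoped LinearAlgebra.Projectivization

theorem result (k : Type) [Field k] [NumberField k] (σ : k →+* ℂ) (a b : 𝓞 k)
    (hE : 4 * a ^ 3 + 27 * b ^ 2 ≠ 0) (r n q : ℕ)
    (G : Fin q → MvPolynomial ((Fin r × Fin 3) ⊕ Fin (n + 1)) (𝓞 k))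
    (d : Fin q → Fin r → ℕ) (deg : Fin q → ℕ) (hG : ∀ l, MultiHomog (G l) (d l) (deg l))
    (M e : ℕ) (hX : ∀ m, 1 ≤ m → m ≤ M → ∀ S, DimLE e (Sums σ a b G m S)) :
    ∃ D : ℕ, ∀ (K : Type) [Field K] [NumberField K] [Algebra k K] (T : Finset ℕ),
      (∀ p ∈ T, p.Prime) → ∀ ε : ℝ, 0 < ε →
      ∃ C : ℝ, ∀ B : ℝ, 1 ≤ B →
        (∃ 𝒵 : Finset (Set (ℙ K (Fin (n + 1) → K))), (𝒵.card : ℝ) ≤ C * B ^ ε ∧
          (∀ Z ∈ 𝒵, DimDegLE e D Z) ∧
          ∀ y : ℙ K (Fin (n + 1) → K), y.mulHeight ≤ B → Unobstructed a b G T M y →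
            ∃ Z ∈ 𝒵, y ∈ Z) ∧
        ∀ S : Finset K, S.Nonempty →
          ({t : Fin n → K | (∀ i, t i ∈ S) ∧ (aff t).mulHeight ≤ B ∧
            Unobstructed a b G T M (aff t)}.ncard : ℝ) ≤ C * B ^ ε * (S.card : ℝ) ^ e :=
  Pool.Agent.H148S.closure_main k σ a b hE r n q G d deg hG M e hX

/-- an explicit class of complete intersections in `E ^ r` -/
theorem instances (k : Type) [Field k] [NumberField k] (σ : k →+* ℂ) (a b : 𝓞 k)
    (hE : 4 * a ^ 3 + 27 * b ^ 2 ≠ 0) (r n s m : ℕ) (hs : 1 ≤ s) (hsn : s ≤ n) (hm : 1 ≤ m)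
    (f : Fin s → Fin (n + 1) → MvPolynomial (Fin r × Fin 3) (𝓞 k)) (d : Fin s → Fin r → ℕ)
    (hf : ∀ l i, IsForm (f l i) (d l))
    (hrk : ∀ V : Fin r → Fin 3 → ℂ, (∀ i, OnE (σ a) (σ b) (V i)) →
      LinearIndependent ℂ (fun (l : Fin s) (i : Fin (n + 1)) =>
        eval₂ (σ.comp (algebraMap (𝓞 k) k)) (fun ij : Fin r × Fin 3 => V ij.1 ij.2) (f l i))) :
    ∃ D : ℕ, ∀ (K : Type) [Field K] [NumberField K] [Algebra k K] (T : Finset ℕ),
      (∀ p ∈ T, p.Prime) → ∀ ε : ℝ, 0 < ε →
      ∃ C : ℝ, ∀ B : ℝ, 1 ≤ B →
        ∃ 𝒵 : Finset (Set (ℙ K (Fin (n + 1) → K))), (𝒵.card : ℝ) ≤ C * B ^ ε ∧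
          (∀ Z ∈ 𝒵, DimDegLE (n - s) D Z) ∧
          ∀ y : ℙ K (Fin (n + 1) → K), y.mulHeight ≤ B →
            Unobstructed a b (fun l => diag m (f l)) T 1 y → ∃ Z ∈ 𝒵, y ∈ Z := by
  obtain ⟨D, hD⟩ := Pool.Agent.H148S.closure_main k σ a b hE r n s (fun l => diag m (f l)) d
    (fun _ => m) (fun l => Pool.Agent.H148N.diag_homog m (f l) (d l) (hf l)) 1 (n - s)
    (Pool.Agent.H148N.diag_sums σ a b hs hsn m hm f hrk)
  refine ⟨D, fun K _ _ _ T hT ε hε => ?_⟩
  obtain ⟨C, hC⟩ := hD K T hT ε hε
  refine ⟨C, fun B hB => ?_⟩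
  obtain ⟨⟨𝒵, h1, h2, h3⟩, -⟩ := hC B hB
  exact ⟨𝒵, h1, h2, h3⟩

end Pool.Agent.Results.MP_308fa9_nt.ClosuresFewSubvarieties
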